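import Mathlib
import Pool.Agent.U37.LC.Stm2

/-!
Project LC: the exponentials as elements of the Hilbert space of the curve.
-/

set_option autoImplicit false

open MeasureTheory Filter Topology Complex
open scoped ComplexConjugate InnerProductSpace BoundedContinuousFunction

namespace Pool.Agent.U913.LC.Ex
open Pool.Agent.U37.LC

variable (L : ℝ) (X Y : ℝ → ℝ)

theorem ee_norm (p η s : ℝ) : ‖ee X Y p η s‖ = 1 := by
  unfold ee
  have : (2 * Real.pi * I * (p * X s + η * Y s) : ℂ) =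
      ((2 * Real.pi * (p * X s + η * Y s) : ℝ) : ℂ) * I := by push_cast; ring
  rw [this, Complex.norm_exp_ofReal_mul_I]

theorem ee_cont (hX : Continuous X) (hY : Continuous Y) :
    Continuous (fun x : (ℝ × ℝ) × ℝ => ee X Y x.1.1 x.1.2 x.2) := by
  unfold ee
  fun_prop

theorem ee_cont1 (hX : Continuous X) (hY : Continuous Y) (q : ℝ × ℝ) :
    Continuous (fun s : ℝ => ee X Y q.1 q.2 s) := by
  unfold ee
  fun_prop

theorem ee_memLp (hX : Continuous X) (hY : Continuous Y) (q : ℝ × ℝ) :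
    MemLp (fun s : ℝ => ee X Y q.1 q.2 s) 2 (volume.restrict (Set.Ioc (0 : ℝ) L)) :=
  MemLp.of_bound (ee_cont1 X Y hX hY q).aestronglyMeasurable 1
    (Eventually.of_forall fun s => (ee_norm X Y _ _ s).le)

/-- the exponential as an element of the Hilbert space -/
noncomputable def EE (hX : Continuous X) (hY : Continuous Y) (q : ℝ × ℝ) : XX L :=
  (ee_memLp L X Y hX hY q).toLp _

theorem EE_ae (hX : Continuous X) (hY : Continuous Y) (q : ℝ × ℝ) :
    (EE L X Y hX hY q : ℝ → ℂ) =ᵐ[volume.restrict (Set.Ioc (0 : ℝ) L)]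
      fun s => ee X Y q.1 q.2 s := MemLp.coeFn_toLp _

theorem cf_eq (hX : Continuous X) (hY : Continuous Y) (q : ℝ × ℝ) (b : XX L) :
    cf L X Y q.1 q.2 b = ⟪EE L X Y hX hY q, b⟫_ℂ := by
  rw [inner_L2]
  unfold cf
  apply integral_congr_ae
  filter_upwards [EE_ae L X Y hX hY q] with s h
  rw [h]

theorem EE_norm (hX : Continuous X) (hY : Continuous Y) (q : ℝ × ℝ) :
    ‖EE L X Y hX hY q‖ ≤
      ((measureUnivNNReal (volume.restrict (Set.Ioc (0 : ℝ) L)) : NNReal) : ℝ) ^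
        (ENNReal.toReal 2)⁻¹ * 1 := by
  apply Lp.norm_le_of_ae_bound zero_le_one
  filter_upwards [EE_ae L X Y hX hY q] with s h
  rw [h, ee_norm]

theorem ee_sub (p η p' η' s : ℝ) : ‖ee X Y p η s - ee X Y p' η' s‖ ≤
    2 * Real.pi * (|p - p'| * |X s| + |η - η'| * |Y s|) := by
  unfold ee
  have h1 : (2 * Real.pi * I * (p * X s + η * Y s) : ℂ) =
      ((2 * Real.pi * (p * X s + η * Y s) : ℝ) : ℂ) * I := by push_cast; ring
  have h2 : (2 * Real.pi * I * (p' * X s + η' * Y s) : ℂ) =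
      ((2 * Real.pi * (p' * X s + η' * Y s) : ℝ) : ℂ) * I := by push_cast; ring
  rw [h1, h2]
  set a := 2 * Real.pi * (p * X s + η * Y s)
  set b := 2 * Real.pi * (p' * X s + η' * Y s)
  have h3 : cexp ((a : ℂ) * I) - cexp ((b : ℂ) * I) =
      cexp ((b : ℂ) * I) * (cexp (I * ((a - b : ℝ) : ℂ)) - 1) := by
    rw [mul_sub, mul_one, ← Complex.exp_add]
    congr 2
    push_cast
    ring
  rw [h3, norm_mul, Complex.norm_exp_ofReal_mul_I, one_mul]
  have h4 := Real.norm_exp_I_mul_ofReal_sub_one_le (x := a - b)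
  refine h4.trans ?_
  have h5 : a - b = 2 * Real.pi * ((p - p') * X s + (η - η') * Y s) := by
    simp only [a, b]; ring
  rw [h5, Real.norm_eq_abs, abs_mul, abs_of_pos (by positivity : (0 : ℝ) < 2 * Real.pi)]
  refine mul_le_mul_of_nonneg_left ?_ (by positivity)
  refine (abs_add_le _ _).trans (le_of_eq ?_)
  rw [abs_mul, abs_mul]

theorem EE_cont (hX : Continuous X) (hY : Continuous Y) : Continuous (EE L X Y hX hY) := by
  obtain ⟨M₁, hM₁⟩ := (isCompact_Icc (a := (0 : ℝ)) (b := L)).exists_bound_of_continuousOn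
    hX.continuousOn
  obtain ⟨M₂, hM₂⟩ := (isCompact_Icc (a := (0 : ℝ)) (b := L)).exists_bound_of_continuousOn
    hY.continuousOn
  have key : ∀ q q', ‖EE L X Y hX hY q - EE L X Y hX hY q'‖ ≤
      ((measureUnivNNReal (volume.restrict (Set.Ioc (0 : ℝ) L)) : NNReal) : ℝ) ^
        (ENNReal.toReal 2)⁻¹ * (2 * Real.pi * (|q.1 - q'.1| * |M₁| + |q.2 - q'.2| * |M₂|)) := by
    intro q q'
    apply Lp.norm_le_of_ae_bound (by positivity)
    filter_upwards [EE_ae L X Y hX hY q, EE_ae L X Y hX hY q',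
      Lp.coeFn_sub (EE L X Y hX hY q) (EE L X Y hX hY q'),
      ae_restrict_mem measurableSet_Ioc] with s h1 h2 h3 h4
    rw [h3, Pi.sub_apply, h1, h2]
    refine (ee_sub X Y _ _ _ _ s).trans ?_
    have h5 : |X s| ≤ |M₁| := (hM₁ s ⟨h4.1.le, h4.2⟩).trans (le_abs_self _)
    have h6 : |Y s| ≤ |M₂| := (hM₂ s ⟨h4.1.le, h4.2⟩).trans (le_abs_self _)
    gcongr
  refine continuous_iff_continuousAt.2 fun q' => ?_
  rw [ContinuousAt, tendsto_iff_norm_sub_tendsto_zero]
  refine squeeze_zero (fun q => norm_nonneg _) (fun q => key q q') ?_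
  have : Continuous fun q : ℝ × ℝ =>
      ((measureUnivNNReal (volume.restrict (Set.Ioc (0 : ℝ) L)) : NNReal) : ℝ) ^
        (ENNReal.toReal 2)⁻¹ * (2 * Real.pi * (|q.1 - q'.1| * |M₁| + |q.2 - q'.2| * |M₂|)) := by
    fun_prop
  have h := this.tendsto q'
  simpa using h

theorem cf_cont (hX : Continuous X) (hY : Continuous Y) (b : XX L) :
    Continuous fun q : ℝ × ℝ => cf L X Y q.1 q.2 b := by
  simp_rw [cf_eq L X Y hX hY]
  exact (EE_cont L X Y hX hY).inner continuous_const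

end Pool.Agent.U913.LC.Ex
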