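import Mathlib
import Pool.Agent.U37.LC.Stm2
import Pool.Agent.U913.LC.Exp

/-!
Project LC, job DMap.
-/

set_option autoImplicit false

open MeasureTheory Filter Topology Complex
open scoped ComplexConjugate InnerProductSpace BoundedContinuousFunction

namespace Pool.Agent.U913.LC.DM
open Pool.Agent.U37.LC Pool.Agent.U913.LC.Ex

variable (L : ℝ) (X Y : ℝ → ℝ)

/-- the function -/
noncomputable def dm (b : XX L) (q : ℤ × ℝ) : ℂ :=
  ((rho q.1 q.2 ^ (-(3 / 8) : ℝ) : ℝ) : ℂ) * cf L X Y q.1 q.2 b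

theorem rho_pos (n : ℤ) (η : ℝ) : 0 < rho n η := by unfold rho; positivity

theorem rho_cont : Continuous fun q : ℤ × ℝ => rho q.1 q.2 := by
  unfold rho
  have : Continuous fun q : ℤ × ℝ => (q.1 : ℝ) :=
    (continuous_of_discreteTopology (f := fun n : ℤ => (n : ℝ))).comp continuous_fst
  fun_prop

theorem dm_cont (hX : Continuous X) (hY : Continuous Y) (b : XX L) :
    Continuous (dm L X Y b) := by
  unfold dm
  have h1 : Continuous fun q : ℤ × ℝ => rho q.1 q.2 ^ (-(3 / 8) : ℝ) :=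
    rho_cont.rpow_const fun q => Or.inl (rho_pos _ _).ne'
  have h2 : Continuous fun q : ℤ × ℝ => ((q.1 : ℝ), q.2) := by
    have : Continuous fun q : ℤ × ℝ => (q.1 : ℝ) :=
      (continuous_of_discreteTopology (f := fun n : ℤ => (n : ℝ))).comp continuous_fst
    fun_prop
  have h3 : Continuous ((fun q : ℝ × ℝ => cf L X Y q.1 q.2 b) ∘
      (fun q : ℤ × ℝ => ((q.1 : ℝ), q.2))) := (cf_cont L X Y hX hY b).comp h2
  have h4 : Continuous (Complex.ofReal ∘ fun q : ℤ × ℝ => rho q.1 q.2 ^ (-(3 / 8) : ℝ)) :=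
    continuous_ofReal.comp h1
  exact h4.mul h3

theorem lint_nu (f : ℤ × ℝ → ENNReal) (hf : Measurable f) :
    ∫⁻ q, f q ∂nu = ∑' n : ℤ, ∫⁻ η : ℝ, f (n, η) := by
  unfold nu
  rw [lintegral_prod _ hf.aemeasurable, lintegral_count]

theorem main (hT : JobTrace) (hC : Coord L X Y) : ∃ C : ℝ, 0 < C ∧ ∀ b : XX L,
    ∫⁻ q, ‖dm L X Y b q‖ₑ ^ (2 : ℝ) ∂nu ≤ ENNReal.ofReal (C * ‖b‖ ^ 2) := by
  obtain ⟨C, hCp, h⟩ := hT L X Y hC
  refine ⟨C, hCp, fun b => ?_⟩
  have h1 := h b (Lp.memLp b)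
  have h2 : ∫ s in Set.Ioc (0 : ℝ) L, ‖(b : ℝ → ℂ) s‖ ^ 2 = ‖b‖ ^ 2 := by
    have h3 : ((‖b‖ ^ 2 : ℝ) : ℂ) = ⟪b, b⟫_ℂ := by
      rw [inner_self_eq_norm_sq_to_K]; norm_cast
    rw [inner_L2] at h3
    have h4 : (((∫ s in Set.Ioc (0 : ℝ) L, ‖(b : ℝ → ℂ) s‖ ^ 2 : ℝ)) : ℂ) = ((‖b‖ ^ 2 : ℝ) : ℂ) := by
      rw [h3, ← integral_complex_ofReal]
      congr 1
      funext s
      rw [Complex.conj_mul', ofReal_pow]
    exact_mod_cast h4
  rw [h2] at h1
  refine le_trans (le_of_eq ?_) h1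
  rw [lint_nu]
  · refine tsum_congr fun n => lintegral_congr fun η => ?_
    rw [← ofReal_norm, ENNReal.ofReal_rpow_of_nonneg (norm_nonneg _) (by norm_num)]
    congr 1
    unfold dm
    have hr := rho_pos n η
    rw [norm_mul, Complex.norm_real, Real.norm_eq_abs, abs_of_pos (Real.rpow_pos_of_pos hr _),
      Real.rpow_two, mul_pow, ← Real.rpow_natCast (rho n η ^ (-(3 / 8) : ℝ)) 2, ← Real.rpow_mul hr.le]
    norm_num
    left
    rfl
  · have := (dm_cont L X Y hC.contX hC.contY b).measurable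
    fun_prop

theorem eLp (C : ℝ) (hCp : 0 < C) (b : XX L)
    (h : ∫⁻ q, ‖dm L X Y b q‖ₑ ^ (2 : ℝ) ∂nu ≤ ENNReal.ofReal (C * ‖b‖ ^ 2)) :
    eLpNorm (dm L X Y b) 2 nu ≤ ENNReal.ofReal (Real.sqrt C * ‖b‖) := by
  rw [eLpNorm_eq_lintegral_rpow_enorm_toReal two_ne_zero ENNReal.ofNat_ne_top]
  simp only [ENNReal.toReal_ofNat]
  refine (ENNReal.rpow_le_rpow h (by norm_num)).trans (le_of_eq ?_)
  rw [ENNReal.ofReal_rpow_of_nonneg (by positivity) (by norm_num), ← Real.sqrt_eq_rpow,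
    Real.sqrt_mul hCp.le, Real.sqrt_sq (norm_nonneg _)]

theorem dm_add (hX : Continuous X) (hY : Continuous Y) (a b : XX L) (q : ℤ × ℝ) :
    dm L X Y (a + b) q = dm L X Y a q + dm L X Y b q := by
  unfold dm
  rw [cf_eq L X Y hX hY (q.1, q.2) (a + b), inner_add_right, ← cf_eq, ← cf_eq]
  ring

theorem dm_smul (hX : Continuous X) (hY : Continuous Y) (c : ℂ) (b : XX L) (q : ℤ × ℝ) :
    dm L X Y (c • b) q = c * dm L X Y b q := by
  unfold dm
  rw [cf_eq L X Y hX hY (q.1, q.2) (c • b), inner_smul_right, ← cf_eq]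
  ring

/-- Job DMap -/
theorem jobDMap (hT : JobTrace) : JobDMap := by
  intro L X Y hC
  obtain ⟨C, hCp, h⟩ := main L X Y hT hC
  have hmem : ∀ b : XX L, MemLp (dm L X Y b) 2 nu := fun b =>
    ⟨(dm_cont L X Y hC.contX hC.contY b).aestronglyMeasurable,
      (eLp L X Y C hCp b (h b)).trans_lt ENNReal.ofReal_lt_top⟩
  refine ⟨LinearMap.mkContinuous
    { toFun := fun b => (hmem b).toLp _
      map_add' := by
        intro a b
        ext1
        filter_upwards [MemLp.coeFn_toLp (hmem (a + b)), MemLp.coeFn_toLp (hmem a),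
          MemLp.coeFn_toLp (hmem b), Lp.coeFn_add ((hmem a).toLp _) ((hmem b).toLp _)]
          with q h1 h2 h3 h4
        rw [h1, h4, Pi.add_apply, h2, h3, dm_add L X Y hC.contX hC.contY]
      map_smul' := by
        intro c a
        ext1
        filter_upwards [MemLp.coeFn_toLp (hmem (c • a)), MemLp.coeFn_toLp (hmem a),
          Lp.coeFn_smul c ((hmem a).toLp _)]
          with q h1 h2 h4
        rw [h1, RingHom.id_apply, h4, Pi.smul_apply, h2, dm_smul L X Y hC.contX hC.contY,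
          smul_eq_mul] } (Real.sqrt C) ?_, ?_⟩
  · intro b
    simp only [LinearMap.coe_mk, AddHom.coe_mk]
    rw [Lp.norm_toLp]
    exact ENNReal.toReal_le_of_le_ofReal (by positivity) (eLp L X Y C hCp b (h b))
  · intro b
    exact MemLp.coeFn_toLp (hmem b)

end Pool.Agent.U913.LC.DM
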