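import Mathlib
import Pool.Agent.U37.LC.Stm2

set_option autoImplicit false

open MeasureTheory Filter Topology Complex
open scoped ComplexConjugate InnerProductSpace BoundedContinuousFunction FourierTransform LineDeriv
open scoped SchwartzMap

namespace Pool.Agent.U913.LC.Four
open Pool.Agent.U37.LC

/-- the coordinates -/
noncomputable def xiL (l e : E2) : (ℝ × ℝ) →ₗ[ℝ] E2 :=
  (LinearMap.fst ℝ ℝ ℝ).smulRight ((‖l‖ ^ 2)⁻¹ • l) + (LinearMap.snd ℝ ℝ ℝ).smulRight e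

theorem xiL_apply (l e : E2) (q : ℝ × ℝ) : xiL l e q = q.1 • ((‖l‖ ^ 2)⁻¹ • l) + q.2 • e := by
  simp [xiL]

theorem inner_l (l e : E2) (hl : l ≠ 0) (hel : ⟪e, l⟫_ℝ = 0) (q : ℝ × ℝ) :
    ⟪xiL l e q, l⟫_ℝ = q.1 := by
  have h0 : ‖l‖ ≠ 0 := norm_ne_zero_iff.2 hl
  rw [xiL_apply, inner_add_left, inner_smul_left, inner_smul_left, inner_smul_left, hel,
    real_inner_self_eq_norm_sq]
  simp
  field_simp

theorem inner_e (l e : E2) (he : ‖e‖ = 1) (hel : ⟪e, l⟫_ℝ = 0) (q : ℝ × ℝ) :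
    ⟪xiL l e q, e⟫_ℝ = q.2 := by
  rw [xiL_apply, inner_add_left, inner_smul_left, inner_smul_left, inner_smul_left,
    real_inner_comm, hel, real_inner_self_eq_norm_sq, he]
  simp

theorem xiL_inj (l e : E2) (hl : l ≠ 0) (he : ‖e‖ = 1) (hel : ⟪e, l⟫_ℝ = 0) :
    Function.Injective (xiL l e) := by
  intro p q h
  have h1 := inner_l l e hl hel p
  have h2 := inner_l l e hl hel q
  have h3 := inner_e l e he hel p
  have h4 := inner_e l e he hel q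
  rw [h] at h1 h3
  exact Prod.ext (h1.symm.trans h2) (h3.symm.trans h4)

noncomputable def Xi (l e : E2) (hl : l ≠ 0) (he : ‖e‖ = 1) (hel : ⟪e, l⟫_ℝ = 0) :
    (ℝ × ℝ) ≃L[ℝ] E2 :=
  ((xiL l e).linearEquivOfInjective (xiL_inj l e hl he hel)
    (by simp)).toContinuousLinearEquiv

theorem Xi_apply (l e : E2) (hl : l ≠ 0) (he : ‖e‖ = 1) (hel : ⟪e, l⟫_ℝ = 0) (q : ℝ × ℝ) :
    Xi l e hl he hel q = xiL l e q := rfl

theorem exists_e (l : E2) (hl : l ≠ 0) : ∃ e : E2, ‖e‖ = 1 ∧ ⟪e, l⟫_ℝ = 0 := by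
  have h0 : ‖l‖ ≠ 0 := norm_ne_zero_iff.2 hl
  refine ⟨‖l‖⁻¹ • !₂[-l 1, l 0], ?_, ?_⟩
  · rw [norm_smul, norm_inv, norm_norm, inv_mul_eq_one₀ h0, EuclideanSpace.norm_eq,
      EuclideanSpace.norm_eq]
    congr 1
    simp [Fin.sum_univ_two]
    ring
  · rw [inner_smul_left]
    simp [PiLp.inner_apply, Fin.sum_univ_two]
    right
    ring

theorem norm_Xi (l e : E2) (hl : l ≠ 0) (he : ‖e‖ = 1) (hel : ⟪e, l⟫_ℝ = 0) (q : ℝ × ℝ) :
    ‖xiL l e q‖ ^ 2 = (q.1 / ‖l‖) ^ 2 + q.2 ^ 2 := by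
  have h0 : ‖l‖ ≠ 0 := norm_ne_zero_iff.2 hl
  have h1 := inner_l l e hl hel q
  have h2 := inner_e l e he hel q
  have h3 : ‖xiL l e q‖ ^ 2 = ⟪xiL l e q, q.1 • ((‖l‖ ^ 2)⁻¹ • l) + q.2 • e⟫_ℝ := by
    rw [← xiL_apply, real_inner_self_eq_norm_sq]
  rw [h3, inner_add_right, inner_smul_right, inner_smul_right, inner_smul_right, h1, h2]
  field_simp

theorem norm_sq (l e : E2) (hl : l ≠ 0) (he : ‖e‖ = 1) (hel : ⟪e, l⟫_ℝ = 0) (x : E2) :
    ‖x‖ ^ 2 = (⟪x, l⟫_ℝ / ‖l‖) ^ 2 + ⟪x, e⟫_ℝ ^ 2 := by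
  obtain ⟨q, rfl⟩ := (Xi l e hl he hel).surjective x
  rw [Xi_apply, inner_l l e hl hel, inner_e l e he hel, norm_Xi l e hl he hel]


theorem map_eq (A : (ℝ × ℝ) ≃L[ℝ] E2) : ∃ k : NNReal, 0 < k ∧
    Measure.map A (volume : Measure (ℝ × ℝ)) = k • (volume : Measure E2) := by
  have : (Measure.map A (volume : Measure (ℝ × ℝ))).IsAddHaarMeasure :=
    A.isAddHaarMeasure_map _
  exact ⟨Measure.addHaarScalarFactor _ _, Measure.addHaarScalarFactor_pos_of_isAddHaarMeasure _ _,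
    Measure.isAddLeftInvariant_eq_smul _ _⟩

section
variable (A : (ℝ × ℝ) ≃L[ℝ] E2) (k : NNReal) (hk : 0 < k)
  (hA : Measure.map A (volume : Measure (ℝ × ℝ)) = k • (volume : Measure E2))

include hk hA in
theorem integral_A (F : E2 → ℂ) : ∫ x, F x = ((k : ℝ)⁻¹ : ℝ) * ∫ q, F (A q) := by
  have h1 : ∫ q, F (A q) = ∫ x, F x ∂(Measure.map A (volume : Measure (ℝ × ℝ))) :=
    (A.toHomeomorph.measurableEmbedding.integral_map F).symm
  rw [h1, hA, integral_smul_nnreal_measure]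
  have : (k : ℂ) ≠ 0 := by exact_mod_cast hk.ne'
  rw [NNReal.smul_def, Complex.real_smul]
  push_cast
  field_simp

include hA in
theorem qmp : Measure.QuasiMeasurePreserving A (volume : Measure (ℝ × ℝ)) (volume : Measure E2) :=
  ⟨A.continuous.measurable, by rw [hA]; exact Measure.smul_absolutelyContinuous⟩

include hA in
theorem memLp_A {f : E2 → ℂ} (hf : MemLp f 2 volume) : MemLp (fun q => f (A q)) 2 volume := by
  have h1 : MemLp f 2 (Measure.map A (volume : Measure (ℝ × ℝ))) := by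
    rw [hA]; exact hf.smul_measure ENNReal.coe_ne_top
  exact (A.toHomeomorph.measurableEmbedding.memLp_map_measure_iff).1 h1

include hk hA in
theorem memLp_A' {f : ℝ × ℝ → ℂ} (hf : MemLp f 2 volume) :
    MemLp (fun x => f (A.symm x)) 2 volume := by
  have h1 : (volume : Measure E2) = k⁻¹ • Measure.map A (volume : Measure (ℝ × ℝ)) := by
    rw [hA, smul_smul, inv_mul_cancel₀ hk.ne', one_smul]
  rw [h1]
  refine MemLp.smul_measure (c := ((k⁻¹ : NNReal) : ENNReal)) ?_ ENNReal.coe_ne_top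
  refine (A.toHomeomorph.measurableEmbedding.memLp_map_measure_iff).2 ?_
  have h2 : (fun x => f (A.symm x)) ∘ A.toHomeomorph = f := by
    funext q
    exact congrArg f (A.symm_apply_apply q)
  rw [h2]
  exact hf

include hA in
theorem eLpNorm_A (f : E2 → ℂ) :
    eLpNorm (fun q => f (A q)) 2 volume = (k : ENNReal) ^ (1 / 2 : ℝ) * eLpNorm f 2 volume := by
  have h1 : eLpNorm f 2 (Measure.map A (volume : Measure (ℝ × ℝ))) =
    eLpNorm (fun q => f (A q)) 2 volume :=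
    A.toHomeomorph.measurableEmbedding.eLpNorm_map_measure
  rw [← h1, hA]
  have h2 := eLpNorm_smul_measure_of_ne_top (p := 2) (μ := (volume : Measure E2))
    ENNReal.ofNat_ne_top f (k : ENNReal)
  simpa using h2

/-- composition with `A` on `L²` -/
noncomputable def compA : Lp ℂ 2 (volume : Measure E2) →L[ℂ] HH :=
  LinearMap.mkContinuous
    { toFun := fun f => (memLp_A A k hA (Lp.memLp f)).toLp _
      map_add' := by
        intro f g
        ext1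
        have h0 := (qmp A k hA).ae_eq (Lp.coeFn_add f g)
        filter_upwards [MemLp.coeFn_toLp (memLp_A A k hA (Lp.memLp (f + g))),
          MemLp.coeFn_toLp (memLp_A A k hA (Lp.memLp f)),
          MemLp.coeFn_toLp (memLp_A A k hA (Lp.memLp g)), h0,
          Lp.coeFn_add ((memLp_A A k hA (Lp.memLp f)).toLp _)
            ((memLp_A A k hA (Lp.memLp g)).toLp _)] with q h1 h2 h3 h4 h5
        rw [h1, h5, Pi.add_apply, h2, h3]
        simpa using h4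
      map_smul' := by
        intro c f
        ext1
        have h0 := (qmp A k hA).ae_eq (Lp.coeFn_smul c f)
        filter_upwards [MemLp.coeFn_toLp (memLp_A A k hA (Lp.memLp (c • f))),
          MemLp.coeFn_toLp (memLp_A A k hA (Lp.memLp f)), h0,
          Lp.coeFn_smul c ((memLp_A A k hA (Lp.memLp f)).toLp _)] with q h1 h2 h4 h5
        rw [h1, RingHom.id_apply, h5, Pi.smul_apply, h2]
        simpa using h4 }
    ((k : ℝ) ^ (1 / 2 : ℝ)) (by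
      intro f
      simp only [LinearMap.coe_mk, AddHom.coe_mk]
      rw [Lp.norm_toLp, eLpNorm_A A k hA, ENNReal.toReal_mul,
        ← Lp.norm_def, ← ENNReal.toReal_rpow, ENNReal.coe_toReal])

theorem compA_ae (f : Lp ℂ 2 (volume : Measure E2)) :
    (compA A k hA f : ℝ × ℝ → ℂ) =ᵐ[volume] fun q => f (A q) :=
  MemLp.coeFn_toLp (memLp_A A k hA (Lp.memLp f))

include hk in
theorem compA_surj : Function.Surjective (compA A k hA) := by
  intro h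
  refine ⟨(memLp_A' A k hk hA (Lp.memLp h)).toLp _, ?_⟩
  ext1
  have h0 := (qmp A k hA).ae_eq (MemLp.coeFn_toLp (memLp_A' A k hk hA (Lp.memLp h)))
  filter_upwards [compA_ae A k hA ((memLp_A' A k hk hA (Lp.memLp h)).toLp _), h0] with q h1 h2
  rw [h1]
  simp only [Function.comp_apply] at h2
  rw [h2]
  simp

include hk in
theorem compA_inner (f g : Lp ℂ 2 (volume : Measure E2)) :
    ⟪f, g⟫_ℂ = ((k : ℝ)⁻¹ : ℝ) * ⟪compA A k hA f, compA A k hA g⟫_ℂ := by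
  rw [L2.inner_def, L2.inner_def, integral_A A k hk hA]
  congr 1
  apply integral_congr_ae
  filter_upwards [compA_ae A k hA f, compA_ae A k hA g] with q h1 h2
  rw [h1, h2]

end


section
variable (A : (ℝ × ℝ) ≃L[ℝ] E2) (k : NNReal) (hk : 0 < k)
  (hA : Measure.map A (volume : Measure (ℝ × ℝ)) = k • (volume : Measure E2))

noncomputable def TT : Lp ℂ 2 (volume : Measure E2) →L[ℂ] HH :=
  (compA A k hA).comp
    ((Lp.fourierTransformₗᵢ E2 ℂ).toContinuousLinearEquiv : Lp ℂ 2 (volume : Measure E2) →L[ℂ]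
      Lp ℂ 2 (volume : Measure E2))

theorem TT_apply (f : Lp ℂ 2 (volume : Measure E2)) : TT A k hA f = compA A k hA (𝓕 f) := rfl

include hk in
theorem TT_surj : Function.Surjective (TT A k hA) := by
  intro h
  obtain ⟨f, hf⟩ := compA_surj A k hk hA h
  refine ⟨𝓕⁻ f, ?_⟩
  rw [TT_apply, FourierInvPair.fourier_fourierInv_eq, hf]

include hk in
theorem TT_inner (f h : Lp ℂ 2 (volume : Measure E2)) :
    ⟪f, h⟫_ℂ = ((k : ℝ)⁻¹ : ℝ) * ⟪TT A k hA f, TT A k hA h⟫_ℂ := by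
  rw [TT_apply, TT_apply, ← compA_inner A k hk hA, Lp.inner_fourier_eq]

noncomputable def gg (φ : SchwartzMap E2 ℂ) (q : ℝ × ℝ) : ℂ := (𝓕 φ : SchwartzMap E2 ℂ) (A q)

theorem compA_toLp (χ : SchwartzMap E2 ℂ) :
    (compA A k hA (χ.toLp 2 volume) : ℝ × ℝ → ℂ) =ᵐ[volume] fun q => χ (A q) := by
  have h0 := (qmp A k hA).ae_eq (χ.coeFn_toLp 2 volume)
  filter_upwards [compA_ae A k hA (χ.toLp 2 volume), h0] with q h1 h2
  rw [h1]; exact h2

theorem TT_toLp (φ : SchwartzMap E2 ℂ) :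
    (TT A k hA (φ.toLp 2 volume) : ℝ × ℝ → ℂ) =ᵐ[volume] gg A φ := by
  rw [TT_apply, SchwartzMap.toLp_fourier_eq]
  exact compA_toLp A k hA _

theorem gg_cont (φ : SchwartzMap E2 ℂ) : Continuous (gg A φ) :=
  (SchwartzMap.continuous _).comp A.continuous

theorem schwartz_bound (χ : SchwartzMap E2 ℂ) : ∃ C : ℝ, 0 ≤ C ∧ ∀ x : E2,
    (1 + ‖x‖) ^ 8 * ‖χ x‖ ≤ C := by
  refine ⟨2 ^ 8 * (Finset.Iic ((8, 0) : ℕ × ℕ)).sup
    (fun m => SchwartzMap.seminorm ℝ m.1 m.2) χ, by positivity, fun x => ?_⟩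
  have := SchwartzMap.one_add_le_sup_seminorm_apply (𝕜 := ℝ) (m := (8, 0)) (k := 8) (n := 0)
    le_rfl le_rfl χ x
  simpa using this

/-- the multiplier `(1 + 4π²‖ξ‖²)^r` -/
noncomputable def mm (r : ℝ) (x : E2) : ℝ := (1 + ‖(2 * Real.pi) • x‖ ^ 2) ^ r

theorem mm_temp (r : ℝ) : (mm r).HasTemperateGrowth := by
  have h1 : (fun x : E2 => (1 + ‖x‖ ^ 2) ^ r).HasTemperateGrowth :=
    Function.hasTemperateGrowth_one_add_norm_sq_rpow E2 r
  have h2 : (fun x : E2 => (2 * Real.pi) • x).HasTemperateGrowth :=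
    ((2 * Real.pi) • ContinuousLinearMap.id ℝ E2).hasTemperateGrowth
  exact h1.comp h2

end


theorem gg_bound (l e : E2) (hl : l ≠ 0) (he : ‖e‖ = 1) (hel : ⟪e, l⟫_ℝ = 0)
    (φ : SchwartzMap E2 ℂ) : ∃ C : ℝ, ∀ q : ℝ × ℝ,
    ‖gg (Xi l e hl he hel) φ q‖ ≤ C / ((1 + q.1 ^ 2) ^ 2 * (1 + q.2 ^ 2) ^ 2) := by
  obtain ⟨C, hC, h⟩ := schwartz_bound (𝓕 φ : SchwartzMap E2 ℂ)
  refine ⟨(1 + ‖l‖ ^ 2) ^ 2 * C, fun q => ?_⟩
  set x := Xi l e hl he hel q with hx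
  have h1 : q.1 = ⟪x, l⟫_ℝ := (inner_l l e hl hel q).symm
  have h2 : q.2 = ⟪x, e⟫_ℝ := (inner_e l e he hel q).symm
  have h3 : q.1 ^ 2 ≤ ‖l‖ ^ 2 * ‖x‖ ^ 2 := by
    rw [h1, ← mul_pow, ← sq_abs]
    exact pow_le_pow_left₀ (abs_nonneg _) ((abs_real_inner_le_norm x l).trans (by rw [mul_comm])) 2
  have h4 : q.2 ^ 2 ≤ ‖x‖ ^ 2 := by
    rw [h2, ← sq_abs]
    refine pow_le_pow_left₀ (abs_nonneg _) ((abs_real_inner_le_norm x e).trans (by rw [he, mul_one])) 2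
  have h5 : 1 + q.1 ^ 2 ≤ (1 + ‖l‖ ^ 2) * (1 + ‖x‖) ^ 2 := by
    nlinarith [norm_nonneg x, sq_nonneg ‖l‖, mul_nonneg (sq_nonneg ‖l‖) (norm_nonneg x)]
  have h6 : 1 + q.2 ^ 2 ≤ (1 + ‖x‖) ^ 2 := by nlinarith [norm_nonneg x]
  have h7 : (1 + q.1 ^ 2) ^ 2 * (1 + q.2 ^ 2) ^ 2 ≤ (1 + ‖l‖ ^ 2) ^ 2 * (1 + ‖x‖) ^ 8 := by
    calc (1 + q.1 ^ 2) ^ 2 * (1 + q.2 ^ 2) ^ 2
        ≤ ((1 + ‖l‖ ^ 2) * (1 + ‖x‖) ^ 2) ^ 2 * ((1 + ‖x‖) ^ 2) ^ 2 := by gcongr
      _ = (1 + ‖l‖ ^ 2) ^ 2 * (1 + ‖x‖) ^ 8 := by ring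
  rw [le_div_iff₀ (by positivity)]
  have h8 : ‖gg (Xi l e hl he hel) φ q‖ = ‖(𝓕 φ : SchwartzMap E2 ℂ) x‖ := rfl
  rw [h8]
  calc ‖(𝓕 φ : SchwartzMap E2 ℂ) x‖ * ((1 + q.1 ^ 2) ^ 2 * (1 + q.2 ^ 2) ^ 2)
      ≤ ‖(𝓕 φ : SchwartzMap E2 ℂ) x‖ * ((1 + ‖l‖ ^ 2) ^ 2 * (1 + ‖x‖) ^ 8) := by gcongr
    _ = (1 + ‖l‖ ^ 2) ^ 2 * ((1 + ‖x‖) ^ 8 * ‖(𝓕 φ : SchwartzMap E2 ℂ) x‖) := by ring
    _ ≤ _ := by gcongr; exact h x

theorem inversion (φ : SchwartzMap E2 ℂ) (x : E2) :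
    φ x = ∫ v : E2, cexp (((2 * Real.pi * ⟪v, x⟫_ℝ : ℝ) : ℂ) * I) * (𝓕 φ : SchwartzMap E2 ℂ) v := by
  have h : φ = 𝓕⁻ (𝓕 φ : SchwartzMap E2 ℂ) := (FourierPair.fourierInv_fourier_eq φ).symm
  conv_lhs => rw [h]
  rw [SchwartzMap.fourierInv_coe, Real.fourierInv_eq']
  simp only [smul_eq_mul]

theorem om_eq (l e : E2) (hl : l ≠ 0) (he : ‖e‖ = 1) (hel : ⟪e, l⟫_ℝ = 0) (q : ℝ × ℝ) :
    om (2 * Real.pi / ‖l‖) q = (2 * Real.pi) ^ 2 * ‖Xi l e hl he hel q‖ ^ 2 := by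
  have h0 : ‖l‖ ≠ 0 := norm_ne_zero_iff.2 hl
  rw [Xi_apply, norm_Xi l e hl he hel, om]
  field_simp
  ring

theorem mm_eq (l e : E2) (hl : l ≠ 0) (he : ‖e‖ = 1) (hel : ⟪e, l⟫_ℝ = 0) (r : ℝ) (q : ℝ × ℝ) :
    mm r (Xi l e hl he hel q) = (1 + om (2 * Real.pi / ‖l‖) q) ^ r := by
  rw [om_eq l e hl he hel, mm, norm_smul, mul_pow]
  congr 3
  rw [Real.norm_eq_abs, sq_abs]

/-- Plancherel for the gradient -/
theorem grad_fourier (φ ψ : SchwartzMap E2 ℂ) : gradForm φ ψ =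
    ∫ x : E2, (((2 * Real.pi) ^ 2 * ‖x‖ ^ 2 : ℝ) : ℂ) *
      (conj ((𝓕 φ : SchwartzMap E2 ℂ) x) * (𝓕 ψ : SchwartzMap E2 ℂ) x) := by
  set m : Fin 2 → E2 := fun i => EuclideanSpace.single i 1 with hm
  have h1 : ∀ i, ∫ x : E2, conj (fderiv ℝ φ x (m i)) * fderiv ℝ ψ x (m i) =
      ∫ x : E2, (((2 * Real.pi) ^ 2 * (x i) ^ 2 : ℝ) : ℂ) *
      (conj ((𝓕 φ : SchwartzMap E2 ℂ) x) * (𝓕 ψ : SchwartzMap E2 ℂ) x) := by
    intro i
    have h2 := SchwartzMap.integral_inner_fourier_fourier (∂_{m i} φ : SchwartzMap E2 ℂ)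
      (∂_{m i} ψ : SchwartzMap E2 ℂ)
    have h3 : ∫ x : E2, ⟪(∂_{m i} φ : SchwartzMap E2 ℂ) x, (∂_{m i} ψ : SchwartzMap E2 ℂ) x⟫_ℂ =
        ∫ x : E2, conj (fderiv ℝ φ x (m i)) * fderiv ℝ ψ x (m i) := by
      apply integral_congr_ae
      refine Eventually.of_forall fun x => ?_
      simp only [SchwartzMap.lineDerivOp_apply_eq_fderiv, RCLike.inner_apply]
      ring
    rw [← h3, ← h2]
    apply integral_congr_ae
    refine Eventually.of_forall fun x => ?_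
    have ht : (inner ℝ · (m i) : E2 → ℝ).HasTemperateGrowth :=
      ((innerSL ℝ).flip (m i)).hasTemperateGrowth
    simp only [SchwartzMap.fourier_lineDerivOp_eq, smul_apply,
      SchwartzMap.smulLeftCLM_apply_apply ht, RCLike.inner_apply]
    have h4 : ⟪x, m i⟫_ℝ = x i := by
      simp [hm, EuclideanSpace.inner_single_right]
    rw [h4]
    simp only [smul_eq_mul, Complex.real_smul, map_mul, conj_I, conj_ofReal, map_ofNat]
    push_cast
    linear_combination (-(2 * Real.pi : ℂ) ^ 2 * (x i : ℂ) ^ 2 * (conj ((𝓕 φ : SchwartzMap E2 ℂ) x) * (𝓕 ψ : SchwartzMap E2 ℂ) x)) * I_sq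
  have hint : ∀ i, Integrable (fun x : E2 => conj (fderiv ℝ φ x (m i)) * fderiv ℝ ψ x (m i)) := by
    intro i
    have h2 := ((∂_{m i} φ : SchwartzMap E2 ℂ).memLp 2 volume)
    have h3 := ((∂_{m i} ψ : SchwartzMap E2 ℂ).memLp 2 volume)
    have h4 := (h2.star).integrable_mul h3
    refine h4.congr (Eventually.of_forall fun x => ?_)
    simp [SchwartzMap.lineDerivOp_apply_eq_fderiv]
  have hint' : ∀ i, Integrable (fun x : E2 => (((2 * Real.pi) ^ 2 * (x i) ^ 2 : ℝ) : ℂ) *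
      (conj ((𝓕 φ : SchwartzMap E2 ℂ) x) * (𝓕 ψ : SchwartzMap E2 ℂ) x)) := by
    intro i
    have ht : (inner ℝ · (m i) : E2 → ℝ).HasTemperateGrowth :=
      ((innerSL ℝ).flip (m i)).hasTemperateGrowth
    have h2 := ((SchwartzMap.smulLeftCLM ℂ (inner ℝ · (m i)) (𝓕 φ : SchwartzMap E2 ℂ)).memLp 2 volume)
    have h3 := ((SchwartzMap.smulLeftCLM ℂ (inner ℝ · (m i)) (𝓕 ψ : SchwartzMap E2 ℂ)).memLp 2 volume)
    have h4 := ((h2.star).integrable_mul h3).const_mul ((2 * Real.pi : ℂ) ^ 2)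
    refine h4.congr (Eventually.of_forall fun x => ?_)
    have h5 : ⟪x, m i⟫_ℝ = x i := by
      simp [hm, EuclideanSpace.inner_single_right]
    simp only [Pi.mul_apply, Pi.star_apply, SchwartzMap.smulLeftCLM_apply_apply ht, h5]
    simp
    ring
  unfold gradForm
  rw [integral_finsetSum _ (fun i _ => hint i), Finset.sum_congr rfl (fun i _ => h1 i),
    ← integral_finsetSum _ (fun i _ => hint' i)]
  apply integral_congr_ae
  refine Eventually.of_forall fun x => ?_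
  simp only
  rw [← Finset.sum_mul, ← ofReal_sum, ← Finset.mul_sum, EuclideanSpace.norm_sq_eq]
  simp


theorem dens (l e : E2) (hl : l ≠ 0) (he : ‖e‖ = 1) (hel : ⟪e, l⟫_ℝ = 0) (k : NNReal) (hk : 0 < k)
    (hA : Measure.map (Xi l e hl he hel) (volume : Measure (ℝ × ℝ)) = k • (volume : Measure E2))
    (v : HH) (ε : ℝ) (hε : 0 < ε) : ∃ (φ : SchwartzMap E2 ℂ) (w : HH), (w : ℝ × ℝ → ℂ) =ᵐ[volume]
    (fun q => ((Real.sqrt (1 + om (2 * Real.pi / ‖l‖) q) : ℝ) : ℂ) * gg (Xi l e hl he hel) φ q) ∧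
    ‖v - w‖ < ε := by
  obtain ⟨f, rfl⟩ := compA_surj (Xi l e hl he hel) k hk hA v
  set C := compA (Xi l e hl he hel) k hA with hC
  have hpos : 0 < ‖C‖ + 1 := by positivity
  have hd := SchwartzMap.denseRange_toLpCLM (E := E2) (F := ℂ) (p := 2)
    (μ := (volume : Measure E2)) ENNReal.ofNat_ne_top
  obtain ⟨χ, hχ⟩ := hd.exists_dist_lt f (ε := ε / (‖C‖ + 1)) (by positivity)
  rw [SchwartzMap.toLpCLM_apply, dist_eq_norm] at hχ
  refine ⟨𝓕⁻ (SchwartzMap.smulLeftCLM ℂ (mm (-(1 / 2))) χ : SchwartzMap E2 ℂ),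
    C (χ.toLp 2 volume), ?_, ?_⟩
  · refine (compA_toLp _ k hA χ).trans (Eventually.of_forall fun q => ?_)
    simp only [gg]
    rw [FourierInvPair.fourier_fourierInv_eq,
      SchwartzMap.smulLeftCLM_apply_apply (mm_temp _), mm_eq l e hl he hel, Real.sqrt_eq_rpow,
      Complex.real_smul, ← mul_assoc, ← ofReal_mul, ← Real.rpow_add]
    · norm_num
    · have : 0 ≤ om (2 * Real.pi / ‖l‖) q := by
        rw [om_eq l e hl he hel]; positivity
      linarith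
  · rw [← map_sub]
    calc ‖C (f - χ.toLp 2 volume)‖ ≤ ‖C‖ * ‖f - χ.toLp 2 volume‖ := C.le_opNorm _
      _ ≤ (‖C‖ + 1) * ‖f - χ.toLp 2 volume‖ := by gcongr; linarith
      _ < (‖C‖ + 1) * (ε / (‖C‖ + 1)) := by gcongr
      _ = ε := by field_simp

/-- Job Fourier -/
theorem jobFourier : JobFourier := by
  intro l hl
  obtain ⟨e, he, hel⟩ := exists_e l hl
  obtain ⟨k, hk, hA⟩ := map_eq (Xi l e hl he hel)
  refine ⟨(k : ℝ)⁻¹, e, TT _ k hA, gg (Xi l e hl he hel), by positivity, he, hel,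
    norm_sq l e hl he hel, TT_surj _ k hk hA, TT_inner _ k hk hA, TT_toLp _ k hA,
    gg_cont _, gg_bound l e hl he hel, ?_, ?_, dens l e hl he hel k hk hA⟩
  · intro φ x
    rw [inversion φ x, integral_A _ k hk hA]
    congr 1
    apply integral_congr_ae
    refine Eventually.of_forall fun q => ?_
    simp only [gg]
    rw [mul_comm]
    congr 2
    have h1 : ⟪Xi l e hl he hel q, x⟫_ℝ = q.1 * (⟪x, l⟫_ℝ / ‖l‖ ^ 2) + q.2 * ⟪x, e⟫_ℝ := by
      rw [Xi_apply, xiL_apply, inner_add_left, inner_smul_left, inner_smul_left, inner_smul_left,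
        real_inner_comm x l, real_inner_comm x e]
      simp
      left
      ring
    rw [h1]
    push_cast
    ring
  · intro φ ψ
    rw [grad_fourier, integral_A _ k hk hA]
    congr 1
    apply integral_congr_ae
    refine Eventually.of_forall fun q => ?_
    simp only [gg]
    rw [om_eq l e hl he hel]

end Pool.Agent.U913.LC.Four
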