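import Mathlib
import Pool.Agent.U37.LC.Stm2
import Pool.Agent.U924.LC.Fibre
import Pool.Agent.U913.LC.Exp

/-!
Project LC, job Curve.
-/

set_option autoImplicit false

open MeasureTheory Filter Topology Complex
open scoped ComplexConjugate InnerProductSpace BoundedContinuousFunction

namespace Pool.Agent.U913.LC.Cu
open Pool.Agent.U37.LC Pool.Agent.U913.LC.Ex

/-- decaying continuous functions -/
structure Dec (g : ℝ × ℝ → ℂ) (C : ℝ) : Prop where
  cont : Continuous g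
  bd : ∀ q : ℝ × ℝ, ‖g q‖ ≤ C / ((1 + q.1 ^ 2) ^ 2 * (1 + q.2 ^ 2) ^ 2)

section
variable {g : ℝ × ℝ → ℂ} {C : ℝ}

theorem Dec.nonneg (h : Dec g C) : 0 ≤ C := by
  have := (norm_nonneg _).trans (h.bd 0)
  simpa using this

theorem Dec.bd1 (h : Dec g C) (q : ℝ × ℝ) : ‖g q‖ ≤ C / ((1 + q.1 ^ 2) * (1 + q.2 ^ 2)) := by
  refine (h.bd q).trans ?_
  have h1 : (1 + q.1 ^ 2) ≤ (1 + q.1 ^ 2) ^ 2 := by nlinarith [sq_nonneg q.1, sq_nonneg (q.1 ^ 2)]
  have h2 : (1 + q.2 ^ 2) ≤ (1 + q.2 ^ 2) ^ 2 := by nlinarith [sq_nonneg q.2, sq_nonneg (q.2 ^ 2)]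
  have h3 := h.nonneg
  gcongr

theorem Dec.bd2 (h : Dec g C) (κ : ℝ) (h0 : 0 ≤ κ) (h1 : κ ≤ 1) (q : ℤ × ℝ) :
    ‖g (κ + q.1, q.2)‖ ≤ 3 * C * ((1 + (q.1 : ℝ) ^ 2)⁻¹ * (1 + q.2 ^ 2)⁻¹) := by
  refine (h.bd1 _).trans ?_
  have h3 := h.nonneg
  simp only
  rw [div_eq_mul_inv, mul_inv]
  have h4 : (1 + (κ + (q.1 : ℝ)) ^ 2)⁻¹ ≤ 3 * (1 + (q.1 : ℝ) ^ 2)⁻¹ := by
    rw [inv_le_iff_one_le_mul₀ (by positivity)]
    have h5 : (1 + (q.1 : ℝ) ^ 2) ≤ 3 * (1 + (κ + (q.1 : ℝ)) ^ 2) := by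
      nlinarith [sq_nonneg (2 * κ + (q.1 : ℝ)), sq_nonneg (κ + (q.1 : ℝ))]
    have h6 : (1 + (q.1 : ℝ) ^ 2) * (1 + (q.1 : ℝ) ^ 2)⁻¹ = 1 := mul_inv_cancel₀ (by positivity)
    have h7 : 0 < (1 + (q.1 : ℝ) ^ 2)⁻¹ := by positivity
    nlinarith
  calc C * ((1 + (κ + (q.1 : ℝ)) ^ 2)⁻¹ * (1 + q.2 ^ 2)⁻¹)
      ≤ C * (3 * (1 + (q.1 : ℝ) ^ 2)⁻¹ * (1 + q.2 ^ 2)⁻¹) := by gcongr
    _ = _ := by ring

end

theorem summ : Summable fun n : ℤ => (1 + (n : ℝ) ^ 2)⁻¹ := by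
  have h1 : Summable fun n : ℕ => (1 + (n : ℝ) ^ 2)⁻¹ := by
    have h2 : Summable fun n : ℕ => 2 * (((n + 1 : ℕ) : ℝ) ^ 2)⁻¹ :=
      ((summable_nat_add_iff 1).2 (Real.summable_nat_pow_inv.2 one_lt_two)).mul_left 2
    refine Summable.of_nonneg_of_le (fun n => by positivity) (fun n => ?_) h2
    rw [inv_le_iff_one_le_mul₀ (by positivity)]
    have h5 : (((n + 1 : ℕ) : ℝ) ^ 2) ≤ 2 * (1 + (n : ℝ) ^ 2) := by
      push_cast
      nlinarith [sq_nonneg ((n : ℝ) - 1)]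
    have h6 : (((n + 1 : ℕ) : ℝ) ^ 2) * (((n + 1 : ℕ) : ℝ) ^ 2)⁻¹ = 1 :=
      mul_inv_cancel₀ (by positivity)
    have h7 : 0 < (((n + 1 : ℕ) : ℝ) ^ 2)⁻¹ := by positivity
    nlinarith
  refine Summable.of_nat_of_neg ?_ ?_
  · simpa using h1
  · simpa using h1

theorem int_B : Integrable (fun q : ℤ × ℝ => (1 + (q.1 : ℝ) ^ 2)⁻¹ * (1 + q.2 ^ 2)⁻¹) nu := by
  have h1 : Integrable (fun n : ℤ => (1 + (n : ℝ) ^ 2)⁻¹) (Measure.count : Measure ℤ) := by
    rw [integrable_count_iff]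
    exact summ.norm
  exact h1.mul_prod integrable_inv_one_add_sq

theorem cont_shift : Continuous fun x : ℝ × (ℤ × ℝ) => (x.1 + (x.2.1 : ℝ), x.2.2) := by
  have : Continuous fun x : ℝ × (ℤ × ℝ) => (x.2.1 : ℝ) :=
    (continuous_of_discreteTopology (f := fun n : ℤ => (n : ℝ))).comp
      (continuous_fst.comp continuous_snd)
  fun_prop

theorem cont_shift1 (κ : ℝ) : Continuous fun q : ℤ × ℝ => (κ + (q.1 : ℝ), q.2) := by
  have : Continuous fun q : ℤ × ℝ => (q.1 : ℝ) :=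
    (continuous_of_discreteTopology (f := fun n : ℤ => (n : ℝ))).comp continuous_fst
  fun_prop

section
variable (L : ℝ) (X Y : ℝ → ℝ) (hX : Continuous X) (hY : Continuous Y) {g : ℝ × ℝ → ℂ} {C : ℝ}

/-- the fibre of `W† v` -/
noncomputable def KK (g : ℝ × ℝ → ℂ) (κ : ℝ) : XX L :=
  ∫ q : ℤ × ℝ, g (κ + q.1, q.2) • EE L X Y hX hY (κ + q.1, q.2) ∂nu

noncomputable def cE : ℝ := ((measureUnivNNReal (volume.restrict (Set.Ioc (0 : ℝ) L)) : NNReal) : ℝ) ^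
        (ENNReal.toReal 2)⁻¹ * 1

theorem cE_nonneg : 0 ≤ cE L := by unfold cE; positivity

theorem KK_bd (h : Dec g C) (κ : ℝ) (h0 : 0 ≤ κ) (h1 : κ ≤ 1) (q : ℤ × ℝ) :
    ‖g (κ + q.1, q.2) • EE L X Y hX hY (κ + q.1, q.2)‖ ≤
      3 * C * cE L * ((1 + (q.1 : ℝ) ^ 2)⁻¹ * (1 + q.2 ^ 2)⁻¹) := by
  rw [norm_smul]
  have h2 := h.bd2 κ h0 h1 q
  have h3 : ‖EE L X Y hX hY (κ + q.1, q.2)‖ ≤ cE L := EE_norm L X Y hX hY _
  have h4 := h.nonneg
  calc _ ≤ (3 * C * ((1 + (q.1 : ℝ) ^ 2)⁻¹ * (1 + q.2 ^ 2)⁻¹)) * cE L := by gcongr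
    _ = _ := by ring

theorem KK_cont (h : Dec g C) : ContinuousOn (KK L X Y hX hY g) (Set.Icc (0 : ℝ) 1) := by
  unfold KK
  refine continuousOn_of_dominated
    (bound := fun q : ℤ × ℝ => 3 * C * cE L * ((1 + (q.1 : ℝ) ^ 2)⁻¹ * (1 + q.2 ^ 2)⁻¹)) ?_ ?_ ?_ ?_
  · intro κ _
    have h1 : Continuous (g ∘ fun q : ℤ × ℝ => (κ + (q.1 : ℝ), q.2)) :=
      h.cont.comp (cont_shift1 κ)
    have h2 : Continuous (EE L X Y hX hY ∘ fun q : ℤ × ℝ => (κ + (q.1 : ℝ), q.2)) :=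
      (EE_cont L X Y hX hY).comp (cont_shift1 κ)
    exact (h1.smul h2).aestronglyMeasurable
  · intro κ hκ
    exact Eventually.of_forall fun q => KK_bd L X Y hX hY h κ hκ.1 hκ.2 q
  · exact int_B.const_mul _
  · refine Eventually.of_forall fun q => Continuous.continuousOn ?_
    have h0 : Continuous fun κ : ℝ => (κ + (q.1 : ℝ), q.2) := by fun_prop
    have h1 : Continuous (g ∘ fun κ : ℝ => (κ + (q.1 : ℝ), q.2)) := h.cont.comp h0
    have h2 : Continuous (EE L X Y hX hY ∘ fun κ : ℝ => (κ + (q.1 : ℝ), q.2)) :=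
      (EE_cont L X Y hX hY).comp h0
    exact h1.smul h2

theorem KK_int (h : Dec g C) (κ : ℝ) (h0 : 0 ≤ κ) (h1 : κ ≤ 1) :
    Integrable (fun q : ℤ × ℝ => g (κ + q.1, q.2) • EE L X Y hX hY (κ + q.1, q.2)) nu := by
  refine (int_B.const_mul (3 * C * cE L)).mono' ?_
    (Eventually.of_forall fun q => KK_bd L X Y hX hY h κ h0 h1 q)
  have h1 : Continuous (g ∘ fun q : ℤ × ℝ => (κ + (q.1 : ℝ), q.2)) :=
    h.cont.comp (cont_shift1 κ)
  have h2 : Continuous (EE L X Y hX hY ∘ fun q : ℤ × ℝ => (κ + (q.1 : ℝ), q.2)) :=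
    (EE_cont L X Y hX hY).comp (cont_shift1 κ)
  exact (h1.smul h2).aestronglyMeasurable

theorem KK_norm (h : Dec g C) (κ : ℝ) (h0 : 0 ≤ κ) (h1 : κ ≤ 1) :
    ‖KK L X Y hX hY g κ‖ ≤ ∫ q : ℤ × ℝ, 3 * C * cE L *
      ((1 + (q.1 : ℝ) ^ 2)⁻¹ * (1 + q.2 ^ 2)⁻¹) ∂nu :=
  norm_integral_le_of_norm_le (int_B.const_mul _)
    (Eventually.of_forall fun q => KK_bd L X Y hX hY h κ h0 h1 q)

theorem KK_memLp (h : Dec g C) : MemLp (KK L X Y hX hY g) 2
    ((volume : Measure ℝ).restrict (Set.Ioo (0 : ℝ) 1)) := by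
  refine MemLp.of_bound ?_ (∫ q : ℤ × ℝ, 3 * C * cE L *
      ((1 + (q.1 : ℝ) ^ 2)⁻¹ * (1 + q.2 ^ 2)⁻¹) ∂nu) ?_
  · exact ((KK_cont L X Y hX hY h).mono Set.Ioo_subset_Icc_self).aestronglyMeasurable
      measurableSet_Ioo
  · exact (ae_restrict_iff' measurableSet_Ioo).2 (Eventually.of_forall fun κ hκ =>
      KK_norm L X Y hX hY h κ hκ.1.le hκ.2.le)

/-- `W† v` -/
theorem adj_eq (θ : ℝ) (W : YY L →L[ℂ] HH) (hW : IsW L θ X Y W) (h : Dec g C) (v : HH)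
    (hv : (v : ℝ × ℝ → ℂ) =ᵐ[volume] fun q => ((Real.sqrt (1 + om θ q) : ℝ) : ℂ) * g q) :
    ContinuousLinearMap.adjoint W v = (KK_memLp L X Y hX hY h).toLp _ := by
  refine ext_inner_left ℂ fun y => ?_
  rw [ContinuousLinearMap.adjoint_inner_right, inner_L2]
  set F : ℝ × ℝ → ℂ := fun q => conj (cf L X Y q.1 q.2 (y (Int.fract q.1) : XX L)) * g q with hF
  have hae : (fun q => conj ((W y : ℝ × ℝ → ℂ) q) * (v : ℝ × ℝ → ℂ) q) =ᵐ[volume] F := by
    filter_upwards [hW y, hv] with q h1 h2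
    rw [h1, h2, hF]
    have hpos : 0 < 1 + om θ q := by
      have : 0 ≤ om θ q := by
        unfold om
        positivity
      linarith
    have hsq : (((1 + om θ q) ^ (-(1 / 2) : ℝ) : ℝ) : ℂ) * ((Real.sqrt (1 + om θ q) : ℝ) : ℂ) = 1 := by
      rw [← Complex.ofReal_mul, Real.sqrt_eq_rpow, ← Real.rpow_add hpos]
      norm_num
    simp only [map_mul, Complex.conj_ofReal]
    calc _ = ((((1 + om θ q) ^ (-(1 / 2) : ℝ) : ℝ) : ℂ) * ((Real.sqrt (1 + om θ q) : ℝ) : ℂ)) *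
        (conj (cf L X Y q.1 q.2 (y (Int.fract q.1) : XX L)) * g q) := by ring
      _ = _ := by rw [hsq, one_mul]
  have hint : Integrable F volume := by
    refine (L2.integrable_inner (𝕜 := ℂ) (W y) v).congr ?_
    refine EventuallyEq.trans (Eventually.of_forall fun q => ?_) hae
    simp only [RCLike.inner_apply]
    rw [mul_comm]
  have fib_mp := Pool.Agent.U924.LC.fib_mp
  rw [integral_congr_ae hae, ← fib_mp.map_eq, integral_map fib_mp.measurable.aemeasurable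
    (by rw [fib_mp.map_eq]; exact hint.aestronglyMeasurable),
    integral_prod (fun x : ℝ × (ℤ × ℝ) => F (x.1 + (x.2.1 : ℝ), x.2.2))
      ((fib_mp.integrable_comp hint.aestronglyMeasurable).2 hint), L2.inner_def]
  refine integral_congr_ae ?_
  filter_upwards [MemLp.coeFn_toLp (KK_memLp L X Y hX hY h), ae_restrict_mem measurableSet_Ioo]
    with κ h1 h2
  rw [h1, KK, ← integral_inner (KK_int L X Y hX hY h κ h2.1.le h2.2.le)]
  refine integral_congr_ae (Eventually.of_forall fun q => ?_)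
  have hfr : Int.fract (κ + (q.1 : ℝ)) = κ := by
    rw [Int.fract_add_intCast]
    exact Int.fract_eq_self.2 ⟨h2.1.le, h2.2⟩
  simp only [hF, hfr]
  rw [inner_smul_right, cf_eq L X Y hX hY (κ + q.1, q.2), inner_conj_symm, mul_comm]

end


section
variable (L : ℝ) (X Y : ℝ → ℝ) (hX : Continuous X) (hY : Continuous Y) {g : ℝ × ℝ → ℂ} {C : ℝ}

/-- pointwise version -/
noncomputable def kk (g : ℝ × ℝ → ℂ) (κ s : ℝ) : ℂ :=
  ∫ q : ℤ × ℝ, g (κ + q.1, q.2) * ee X Y (κ + q.1) q.2 s ∂nu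

/-- the constant bound -/
noncomputable def MM (C : ℝ) : ℝ :=
  ∫ q : ℤ × ℝ, 3 * C * ((1 + (q.1 : ℝ) ^ 2)⁻¹ * (1 + q.2 ^ 2)⁻¹) ∂nu

include hX hY in
theorem kk_cont3 (h : Dec g C) : Continuous fun x : (ℝ × ℝ) × (ℤ × ℝ) =>
    g (x.1.1 + x.2.1, x.2.2) * ee X Y (x.1.1 + x.2.1) x.2.2 x.1.2 := by
  have h0 : Continuous fun x : (ℝ × ℝ) × (ℤ × ℝ) => (x.2.1 : ℝ) :=
    (continuous_of_discreteTopology (f := fun n : ℤ => (n : ℝ))).comp
      (continuous_fst.comp continuous_snd)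
  have h1 : Continuous fun x : (ℝ × ℝ) × (ℤ × ℝ) => (x.1.1 + (x.2.1 : ℝ), x.2.2) := by fun_prop
  have h2 : Continuous fun x : (ℝ × ℝ) × (ℤ × ℝ) => ((x.1.1 + (x.2.1 : ℝ), x.2.2), x.1.2) := by
    fun_prop
  have h3 : Continuous (g ∘ fun x : (ℝ × ℝ) × (ℤ × ℝ) => (x.1.1 + (x.2.1 : ℝ), x.2.2)) :=
    h.cont.comp h1
  have h4 : Continuous ((fun x : (ℝ × ℝ) × ℝ => ee X Y x.1.1 x.1.2 x.2) ∘
    fun x : (ℝ × ℝ) × (ℤ × ℝ) => ((x.1.1 + (x.2.1 : ℝ), x.2.2), x.1.2)) :=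
    (ee_cont X Y hX hY).comp h2
  exact h3.mul h4

include hX hY in
theorem kk_meas (h : Dec g C) : StronglyMeasurable fun x : ℝ × ℝ => kk X Y g x.1 x.2 := by
  unfold kk
  have := Pool.Agent.U924.LC.instSFiniteProdIntRealNu
  exact (kk_cont3 X Y hX hY h).stronglyMeasurable.integral_prod_right'

theorem kk_bd0 (h : Dec g C) (κ s : ℝ) (h0 : 0 ≤ κ) (h1 : κ ≤ 1) (q : ℤ × ℝ) :
    ‖g (κ + q.1, q.2) * ee X Y (κ + q.1) q.2 s‖ ≤
      3 * C * ((1 + (q.1 : ℝ) ^ 2)⁻¹ * (1 + q.2 ^ 2)⁻¹) := by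
  have h3 : ‖ee X Y (κ + q.1) q.2 s‖ = 1 := ee_norm X Y _ _ _
  rw [norm_mul, h3, mul_one]
  exact h.bd2 κ h0 h1 q

include hX hY in
theorem kk_int (h : Dec g C) (κ s : ℝ) (h0 : 0 ≤ κ) (h1 : κ ≤ 1) :
    Integrable (fun q : ℤ × ℝ => g (κ + q.1, q.2) * ee X Y (κ + q.1) q.2 s) nu := by
  refine (int_B.const_mul (3 * C)).mono' ?_
    (Eventually.of_forall fun q => kk_bd0 X Y h κ s h0 h1 q)
  have h2 : Continuous fun q : ℤ × ℝ => (((κ, s), q) : (ℝ × ℝ) × (ℤ × ℝ)) := by fun_prop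
  have h3 : Continuous ((fun x : (ℝ × ℝ) × (ℤ × ℝ) =>
    g (x.1.1 + x.2.1, x.2.2) * ee X Y (x.1.1 + x.2.1) x.2.2 x.1.2) ∘
      fun q : ℤ × ℝ => (((κ, s), q) : (ℝ × ℝ) × (ℤ × ℝ))) := (kk_cont3 X Y hX hY h).comp h2
  exact h3.aestronglyMeasurable

theorem kk_norm (h : Dec g C) (κ s : ℝ) (h0 : 0 ≤ κ) (h1 : κ ≤ 1) :
    ‖kk X Y g κ s‖ ≤ MM C :=
  norm_integral_le_of_norm_le (int_B.const_mul _)
    (Eventually.of_forall fun q => kk_bd0 X Y h κ s h0 h1 q)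

include hX hY in
theorem kk_memLp (h : Dec g C) (κ : ℝ) (h0 : 0 ≤ κ) (h1 : κ ≤ 1) :
    MemLp (kk X Y g κ) 2 (volume.restrict (Set.Ioc (0 : ℝ) L)) := by
  refine MemLp.of_bound ?_ (MM C) (Eventually.of_forall fun s => kk_norm X Y h κ s h0 h1)
  have h2 := (kk_meas X Y hX hY h).comp_measurable (measurable_prodMk_left (x := κ))
  exact h2.aestronglyMeasurable

theorem KK_eq (h : Dec g C) (κ : ℝ) (h0 : 0 ≤ κ) (h1 : κ ≤ 1) :
    KK L X Y hX hY g κ = (kk_memLp L X Y hX hY h κ h0 h1).toLp _ := by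
  refine ext_inner_left ℂ fun b => ?_
  rw [KK, ← integral_inner (KK_int L X Y hX hY h κ h0 h1), inner_L2]
  have e1 : ∀ q : ℤ × ℝ, ⟪b, g (κ + q.1, q.2) • EE L X Y hX hY (κ + q.1, q.2)⟫_ℂ =
      ∫ s in Set.Ioc (0 : ℝ) L, conj (b s) * (g (κ + q.1, q.2) * ee X Y (κ + q.1) q.2 s) := by
    intro q
    rw [inner_smul_right, inner_L2, ← integral_const_mul]
    apply integral_congr_ae
    filter_upwards [EE_ae L X Y hX hY (κ + q.1, q.2)] with s hs
    rw [hs]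
    ring
  rw [integral_congr_ae (Eventually.of_forall e1)]
  have e2 : ∫ s in Set.Ioc (0 : ℝ) L, conj (b s) *
      ((kk_memLp L X Y hX hY h κ h0 h1).toLp _ : ℝ → ℂ) s =
      ∫ s in Set.Ioc (0 : ℝ) L, ∫ q : ℤ × ℝ, conj (b s) *
        (g (κ + q.1, q.2) * ee X Y (κ + q.1) q.2 s) ∂nu := by
    apply integral_congr_ae
    filter_upwards [MemLp.coeFn_toLp (kk_memLp L X Y hX hY h κ h0 h1)] with s hs
    rw [hs, kk, integral_const_mul]
  rw [e2]
  refine integral_integral_swap (f := fun (q : ℤ × ℝ) (s : ℝ) => conj (b s) *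
        (g (κ + q.1, q.2) * ee X Y (κ + q.1) q.2 s)) ?_
  have hb : Integrable (fun s => (b : ℝ → ℂ) s) (volume.restrict (Set.Ioc (0 : ℝ) L)) :=
    (Lp.memLp b).integrable one_le_two
  have hdom : Integrable (fun x : (ℤ × ℝ) × ℝ =>
      (3 * C * ((1 + (x.1.1 : ℝ) ^ 2)⁻¹ * (1 + x.1.2 ^ 2)⁻¹)) * ‖(b : ℝ → ℂ) x.2‖)
      (nu.prod (volume.restrict (Set.Ioc (0 : ℝ) L))) :=
    (int_B.const_mul (3 * C)).mul_prod hb.norm
  refine hdom.mono' ?_ (Eventually.of_forall fun x => ?_)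
  · have h3 : AEStronglyMeasurable (fun x : (ℤ × ℝ) × ℝ => conj ((b : ℝ → ℂ) x.2))
        (nu.prod (volume.restrict (Set.Ioc (0 : ℝ) L))) :=
      (continuous_star.comp_aestronglyMeasurable hb.aestronglyMeasurable).comp_snd
    have h2 : Continuous fun x : (ℤ × ℝ) × ℝ => (((κ, x.2), x.1) : (ℝ × ℝ) × (ℤ × ℝ)) := by
      fun_prop
    have h4 : Continuous ((fun x : (ℝ × ℝ) × (ℤ × ℝ) =>
      g (x.1.1 + x.2.1, x.2.2) * ee X Y (x.1.1 + x.2.1) x.2.2 x.1.2) ∘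
        fun x : (ℤ × ℝ) × ℝ => (((κ, x.2), x.1) : (ℝ × ℝ) × (ℤ × ℝ))) :=
      (kk_cont3 X Y hX hY h).comp h2
    exact h3.mul h4.aestronglyMeasurable
  · simp only [Function.uncurry]
    rw [norm_mul, RCLike.norm_conj, mul_comm]
    exact mul_le_mul_of_nonneg_right (kk_bd0 X Y h κ x.2 h0 h1 x.1) (norm_nonneg _)

/-- the inner product of the adjoints in `(κ, s)` -/
theorem inner_kk {f : ℝ × ℝ → ℂ} {C' : ℝ} (h : Dec g C) (h' : Dec f C') :
    ⟪(KK_memLp L X Y hX hY h).toLp _, (KK_memLp L X Y hX hY h').toLp _⟫_ℂ =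
      ∫ s in Set.Ioc (0 : ℝ) L, ∫ κ in Set.Ioo (0 : ℝ) 1,
        conj (kk X Y g κ s) * kk X Y f κ s := by
  rw [L2.inner_def]
  have e1 : ∫ κ in Set.Ioo (0 : ℝ) 1,
      ⟪((KK_memLp L X Y hX hY h).toLp _ : ℝ → XX L) κ,
        ((KK_memLp L X Y hX hY h').toLp _ : ℝ → XX L) κ⟫_ℂ =
      ∫ κ in Set.Ioo (0 : ℝ) 1, ∫ s in Set.Ioc (0 : ℝ) L,
        conj (kk X Y g κ s) * kk X Y f κ s := by
    apply integral_congr_ae
    filter_upwards [MemLp.coeFn_toLp (KK_memLp L X Y hX hY h),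
      MemLp.coeFn_toLp (KK_memLp L X Y hX hY h'), ae_restrict_mem measurableSet_Ioo]
      with κ h1 h2 h3
    rw [h1, h2, KK_eq L X Y hX hY h κ h3.1.le h3.2.le, KK_eq L X Y hX hY h' κ h3.1.le h3.2.le,
      inner_L2]
    apply integral_congr_ae
    filter_upwards [MemLp.coeFn_toLp (kk_memLp L X Y hX hY h κ h3.1.le h3.2.le),
      MemLp.coeFn_toLp (kk_memLp L X Y hX hY h' κ h3.1.le h3.2.le)] with s h4 h5
    rw [h4, h5]
  rw [e1]
  refine integral_integral_swap (f := fun κ s => conj (kk X Y g κ s) * kk X Y f κ s) ?_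
  have hm : StronglyMeasurable fun x : ℝ × ℝ => conj (kk X Y g x.1 x.2) * kk X Y f x.1 x.2 :=
    (continuous_star.comp_stronglyMeasurable (kk_meas X Y hX hY h)).mul (kk_meas X Y hX hY h')
  refine MeasureTheory.Integrable.mono' (g := fun _ => MM C * MM C') (integrable_const _)
    hm.aestronglyMeasurable ?_
  rw [Measure.prod_restrict]
  refine (ae_restrict_iff' (measurableSet_Ioo.prod measurableSet_Ioc)).2
    (Eventually.of_forall fun x hx => ?_)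
  simp only [Function.uncurry]
  rw [norm_mul, RCLike.norm_conj]
  have h1 := kk_norm X Y h x.1 x.2 hx.1.1.le hx.1.2.le
  have h2 := kk_norm X Y h' x.1 x.2 hx.1.1.le hx.1.2.le
  exact mul_le_mul h1 h2 (norm_nonneg _) ((norm_nonneg _).trans h1)

end


section
variable (L : ℝ) (X Y : ℝ → ℝ) (hX : Continuous X) (hY : Continuous Y) {g : ℝ × ℝ → ℂ} {C : ℝ}

/-- the function on the curve -/
noncomputable def Ph (g : ℝ × ℝ → ℂ) (s : ℝ) : ℂ := ∫ q : ℝ × ℝ, g q * ee X Y q.1 q.2 s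

theorem Dec.integrable (h : Dec g C) : Integrable g := by
  have hint : Integrable (fun q : ℝ × ℝ => C / ((1 + q.1 ^ 2) * (1 + q.2 ^ 2))) := by
    have := (integrable_inv_one_add_sq.mul_prod integrable_inv_one_add_sq).const_mul C
    refine this.congr (Eventually.of_forall fun q => ?_)
    simp only
    rw [div_eq_mul_inv, mul_inv]
  exact hint.mono' h.cont.aestronglyMeasurable (Eventually.of_forall fun q => h.bd1 q)

include hX hY in
theorem Ph_cont (h : Dec g C) : Continuous (Ph X Y g) := by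
  unfold Ph
  refine continuous_of_dominated (bound := fun q => ‖g q‖) ?_ ?_ h.integrable.norm ?_
  · intro s
    have h1 : Continuous fun q : ℝ × ℝ => ee X Y q.1 q.2 s := by
      unfold ee
      fun_prop
    exact (h.cont.mul h1).aestronglyMeasurable
  · intro s
    refine Eventually.of_forall fun q => ?_
    rw [norm_mul, ee_norm, mul_one]
  · refine Eventually.of_forall fun q => ?_
    exact continuous_const.mul (ee_cont1 X Y hX hY q)

include hX hY in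
theorem kk_tsum (h : Dec g C) (κ s : ℝ) (h0 : 0 ≤ κ) (h1 : κ ≤ 1) : kk X Y g κ s =
    ∑' n : ℤ, ∫ η : ℝ, g (κ + n, η) * cexp (2 * Real.pi * I * ((κ + n) * X s + η * Y s)) := by
  have hi := kk_int X Y hX hY h κ s h0 h1
  unfold kk
  unfold nu at hi ⊢
  rw [integral_prod _ hi, integral_countable hi.integral_prod_left]
  refine tsum_congr fun n => ?_
  rw [Measure.real, Measure.count_singleton, ENNReal.toReal_one, one_smul]
  apply integral_congr_ae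
  refine Eventually.of_forall fun η => ?_
  simp only [ee]
  push_cast
  rfl

theorem per_int (hC : Coord L X Y) (s : ℝ) (j : ℤ) : X (s + j * L) = X s + j ∧
    Y (s + j * L) = Y s := by
  constructor
  · induction j using Int.induction_on with
    | zero => simp
    | succ i ih =>
      have := hC.perX (s + i * L)
      push_cast at ih ⊢
      rw [show s + (i + 1) * L = s + i * L + L by ring, this, ih]; ring
    | pred i ih =>
      have := hC.perX (s + (-(i : ℝ) - 1) * L)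
      push_cast at ih ⊢
      rw [show s + (-(i : ℝ) - 1) * L + L = s + -(i : ℝ) * L by ring, ih] at this
      linarith
  · induction j using Int.induction_on with
    | zero => simp
    | succ i ih =>
      have := hC.perY (s + i * L)
      push_cast at ih ⊢
      rw [show s + (i + 1) * L = s + i * L + L by ring, this, ih]
    | pred i ih =>
      have := hC.perY (s + (-(i : ℝ) - 1) * L)
      push_cast at ih ⊢
      rw [show s + (-(i : ℝ) - 1) * L + L = s + -(i : ℝ) * L by ring, ih] at this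
      exact this.symm

theorem Ph_shift (hC : Coord L X Y) (s : ℝ) (j : ℤ) : Ph X Y g (s + j * L) =
    ∫ q : ℝ × ℝ, g q * cexp (2 * Real.pi * I * (q.1 * (X s + j) + q.2 * Y s)) := by
  unfold Ph ee
  obtain ⟨h1, h2⟩ := per_int L X Y hC s j
  rw [h1, h2]
  push_cast
  rfl

theorem hasSum_Ph (hP : JobParseval) (hC : Coord L X Y) {f : ℝ × ℝ → ℂ} {C' : ℝ} (h : Dec g C)
    (h' : Dec f C') (s : ℝ) : HasSum (fun j : ℤ => conj (Ph X Y g (s + j * L)) *
      Ph X Y f (s + j * L)) (∫ κ in Set.Ioo (0 : ℝ) 1, conj (kk X Y g κ s) * kk X Y f κ s) := by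
  have hm : Dec g (max C C') :=
    ⟨h.cont, fun q => (h.bd q).trans (by gcongr; exact le_max_left _ _)⟩
  have hm' : Dec f (max C C') :=
    ⟨h'.cont, fun q => (h'.bd q).trans (by gcongr; exact le_max_right _ _)⟩
  have key := hP g f (max C C') (X s) (Y s) h.cont h'.cont hm.bd1 hm'.bd1
  simp_rw [Ph_shift L X Y hC]
  convert key using 1
  rw [intervalIntegral.integral_of_le zero_le_one, integral_Ioc_eq_integral_Ioo]
  refine setIntegral_congr_fun measurableSet_Ioo fun κ hκ => ?_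
  rw [kk_tsum X Y hC.contX hC.contY h κ s hκ.1.le hκ.2.le,
    kk_tsum X Y hC.contX hC.contY h' κ s hκ.1.le hκ.2.le]

theorem mpL (hL : 0 < L) : MeasurePreserving (fun p : ℝ × ℤ => p.1 + (p.2 : ℝ) * L)
    (((volume : Measure ℝ).restrict (Set.Ioc (0 : ℝ) L)).prod (Measure.count : Measure ℤ))
    volume := by
  have hm : Measurable (fun p : ℝ × ℤ => p.1 + (p.2 : ℝ) * L) := by
    refine measurable_fst.add (Measurable.mul_const ?_ L)
    exact (measurable_from_top (f := fun n : ℤ => (n : ℝ))).comp measurable_snd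
  refine ⟨hm, ?_⟩
  ext s hs
  rw [Measure.map_apply hm hs, Measure.prod_apply_symm (hm hs), lintegral_count]
  have h1 : ∀ n : ℤ, ((volume : Measure ℝ).restrict (Set.Ioc (0 : ℝ) L))
      ((fun x : ℝ => (x, n)) ⁻¹' ((fun p : ℝ × ℤ => p.1 + (p.2 : ℝ) * L) ⁻¹' s)) =
      volume (s ∩ Set.Ioc (0 + n • L) (0 + (n + 1) • L)) := by
    intro n
    have e1 : ((fun x : ℝ => (x, n)) ⁻¹' ((fun p : ℝ × ℤ => p.1 + (p.2 : ℝ) * L) ⁻¹' s)) =
        (fun x : ℝ => x + (n : ℝ) * L) ⁻¹' s := rfl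
    have hms : MeasurableSet ((fun x : ℝ => x + (n : ℝ) * L) ⁻¹' s) :=
      (measurable_id.add_const ((n : ℝ) * L)) hs
    rw [e1, Measure.restrict_apply hms]
    have e2 : (fun x : ℝ => x + (n : ℝ) * L) ⁻¹' s ∩ Set.Ioc (0 : ℝ) L =
        (fun x : ℝ => x + (n : ℝ) * L) ⁻¹' (s ∩ Set.Ioc (0 + n • L) (0 + (n + 1) • L)) := by
      ext x
      simp only [Set.mem_inter_iff, Set.mem_preimage, Set.mem_Ioc, zsmul_eq_mul]
      push_cast
      constructor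
      · rintro ⟨h1, h2, h3⟩
        exact ⟨h1, by linarith, by linarith⟩
      · rintro ⟨h1, h2, h3⟩
        exact ⟨h1, by linarith, by linarith⟩
    rw [e2, measure_preimage_add_right]
  rw [tsum_congr h1, ← measure_iUnion]
  · rw [← Set.inter_iUnion, iUnion_Ioc_add_zsmul hL, Set.inter_univ]
  · intro i j hij
    have := Set.pairwise_disjoint_Ioc_add_zsmul (0 : ℝ) L hij
    exact this.mono Set.inter_subset_right Set.inter_subset_right
  · intro n
    exact hs.inter measurableSet_Ioc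

theorem Ph_memLp (hP : JobParseval) (hC : Coord L X Y) (h : Dec g C) :
    MemLp (Ph X Y g) 2 volume := by
  have hcont := Ph_cont X Y hC.contX hC.contY h
  refine ⟨hcont.aestronglyMeasurable, ?_⟩
  rw [eLpNorm_lt_top_iff_lintegral_rpow_enorm_lt_top two_ne_zero ENNReal.ofNat_ne_top]
  simp only [ENNReal.toReal_ofNat]
  have hmeas : Measurable fun s => ‖Ph X Y g s‖ₑ ^ (2 : ℝ) := by
    have := hcont.measurable
    fun_prop
  have hm2 : Measurable fun p : ℝ × ℤ => ‖Ph X Y g (p.1 + (p.2 : ℝ) * L)‖ₑ ^ (2 : ℝ) :=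
    hmeas.comp (mpL L hC.pos).measurable
  rw [← (mpL L hC.pos).lintegral_comp hmeas, lintegral_prod _ hm2.aemeasurable]
  have key : ∀ s : ℝ, ∫⁻ j : ℤ, ‖Ph X Y g (s + (j : ℝ) * L)‖ₑ ^ (2 : ℝ) ∂Measure.count ≤
      ENNReal.ofReal (MM C * MM C) := by
    intro s
    rw [lintegral_count]
    have h1 := hasSum_Ph L X Y hP hC h h s
    have h2 := Complex.hasSum_re h1
    have e1 : ∀ j : ℤ, (conj (Ph X Y g (s + j * L)) * Ph X Y g (s + j * L)).re =
        ‖Ph X Y g (s + j * L)‖ ^ 2 := by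
      intro j
      rw [Complex.conj_mul']
      norm_cast
    simp_rw [e1] at h2
    have e2 : ∀ j : ℤ, ‖Ph X Y g (s + j * L)‖ₑ ^ (2 : ℝ) =
        ENNReal.ofReal (‖Ph X Y g (s + j * L)‖ ^ 2) := by
      intro j
      rw [← ofReal_norm, ENNReal.ofReal_rpow_of_nonneg (norm_nonneg _) (by norm_num),
        Real.rpow_two]
    rw [tsum_congr e2, ← ENNReal.ofReal_tsum_of_nonneg (fun j => sq_nonneg _) h2.summable,
      h2.tsum_eq]
    apply ENNReal.ofReal_le_ofReal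
    refine (Complex.re_le_norm _).trans ?_
    have h3 : ‖∫ κ in Set.Ioo (0 : ℝ) 1, conj (kk X Y g κ s) * kk X Y g κ s‖ ≤
        (MM C * MM C) * (volume : Measure ℝ).real (Set.Ioo (0 : ℝ) 1) := by
      refine norm_setIntegral_le_of_norm_le_const (by simp) fun κ hκ => ?_
      rw [norm_mul, RCLike.norm_conj]
      have h1 := kk_norm X Y h κ s hκ.1.le hκ.2.le
      exact mul_le_mul h1 h1 (norm_nonneg _) ((norm_nonneg _).trans h1)
    simpa using h3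
  calc ∫⁻ s in Set.Ioc (0 : ℝ) L, ∫⁻ j : ℤ, ‖Ph X Y g (s + (j : ℝ) * L)‖ₑ ^ (2 : ℝ) ∂Measure.count
      ≤ ∫⁻ s in Set.Ioc (0 : ℝ) L, ENNReal.ofReal (MM C * MM C) := lintegral_mono fun s => key s
    _ < ⊤ := by
      rw [lintegral_const]
      exact ENNReal.mul_lt_top ENNReal.ofReal_lt_top (measure_lt_top _ _)

theorem unfold_int (hL : 0 < L) (F : ℝ → ℂ) (hF : Integrable F) (G : ℝ → ℂ)
    (hG : ∀ s, HasSum (fun j : ℤ => F (s + j * L)) (G s)) :
    ∫ s, F s = ∫ s in Set.Ioc (0 : ℝ) L, G s := by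
  have mp := mpL L hL
  have hi : Integrable (fun p : ℝ × ℤ => F (p.1 + (p.2 : ℝ) * L))
      (((volume : Measure ℝ).restrict (Set.Ioc (0 : ℝ) L)).prod (Measure.count : Measure ℤ)) :=
    (mp.integrable_comp hF.aestronglyMeasurable).2 hF
  conv_lhs => rw [← mp.map_eq]
  rw [integral_map mp.measurable.aemeasurable (by rw [mp.map_eq]; exact hF.aestronglyMeasurable),
    integral_prod _ hi]
  apply integral_congr_ae
  filter_upwards [hi.prod_right_ae] with s hs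
  rw [integral_countable hs]
  simp only [Measure.real, Measure.count_singleton, ENNReal.toReal_one, one_smul]
  exact (hG s).tsum_eq

end

/-- Job Curve -/
theorem jobCurve (hP : JobParseval) : JobCurve := by
  intro L θ X Y hC hθ W hW g h C hg hh hgb hhb v w hv hw
  have dg : Dec g C := ⟨hg, hgb⟩
  have dh : Dec h C := ⟨hh, hhb⟩
  rw [adj_eq L X Y hC.contX hC.contY θ W hW dg v hv, adj_eq L X Y hC.contX hC.contY θ W hW dh w hw,
    inner_kk L X Y hC.contX hC.contY dg dh]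
  symm
  have hF : Integrable fun s => conj (Ph X Y g s) * Ph X Y h s := by
    have h1 := (Ph_memLp L X Y hP hC dg).star
    have h2 := Ph_memLp L X Y hP hC dh
    exact h1.integrable_mul h2
  exact unfold_int L hC.pos (fun s => conj (Ph X Y g s) * Ph X Y h s) hF _
    (fun s => hasSum_Ph L X Y hP hC dg dh s)

end Pool.Agent.U913.LC.Cu
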